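import Mathlib

/-!
# A zero-free disc for `B'' = ((z - θ)/2) B`, `B 0 = 0`
-/

namespace Pool.Agent.V1146.Chern

open Filter Topology MeasureTheory Set

noncomputable section

/-- two-fold integration of the differential equation -/
lemma taylor_bound {B : ℂ → ℂ} (hB : Differentiable ℂ B) (hB0 : B 0 = 0) {θ : ℝ} (hθ : 0 ≤ θ)
    (hode : ∀ z, deriv (deriv B) z = ((z - θ) / 2) * B z) {m : ℝ} (hm : 0 ≤ m) {z : ℂ}
    (hz : ∀ t ∈ Icc (0 : ℝ) 1, ‖B (t * z)‖ ≤ m * (t * ‖z‖)) :
    ‖B z - z * deriv B 0‖ ≤ m * ‖z‖ ^ 3 * (θ / 12 + ‖z‖ / 24) := by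
  have hB' : Differentiable ℂ (deriv B) := hB.deriv
  set ρ := ‖z‖ with hρ
  have hρ0 : 0 ≤ ρ := norm_nonneg z
  have hline : ∀ t : ℝ, HasDerivAt (fun t : ℝ => (t : ℂ) * z) z t := by
    intro t
    have := (Complex.ofRealCLM.hasDerivAt (x := t)).mul_const z
    simpa using this
  -- first integration
  have step1 : ∀ t ∈ Icc (0 : ℝ) 1, ‖z * deriv B (t * z) - z * deriv B 0‖ ≤
      m * ρ ^ 3 * (θ * t ^ 2 / 4 + ρ * t ^ 3 / 6) := by
    have hd : ∀ t : ℝ, HasDerivAt (fun t : ℝ => z * deriv B (t * z) - z * deriv B 0)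
        (z * (deriv (deriv B) (t * z) * z)) t := by
      intro t
      have h0 : HasDerivAt (deriv B) (deriv (deriv B) ((t : ℂ) * z)) ((t : ℂ) * z) :=
        (hB' _).hasDerivAt
      have h1 : HasDerivAt (fun t : ℝ => deriv B (t * z)) (deriv (deriv B) (t * z) * z) t :=
        HasDerivAt.comp (h₂ := deriv B) (h := fun t : ℝ => (t : ℂ) * z) t h0 (hline t)
      exact (h1.const_mul z).sub_const _
    refine image_norm_le_of_norm_deriv_right_le_deriv_boundary
      (f' := fun t : ℝ => z * (deriv (deriv B) (t * z) * z))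
      (B' := fun t => m * ρ ^ 3 * (θ * t / 2 + ρ * t ^ 2 / 2))
      (fun t _ => (hd t).continuousAt.continuousWithinAt)
      (fun t _ => (hd t).hasDerivWithinAt) (by simp) ?_ ?_
    · intro t
      have h2 : HasDerivAt (fun t : ℝ => t ^ 2) (2 * t) t := by
        simpa using hasDerivAt_pow 2 t
      have h3 : HasDerivAt (fun t : ℝ => t ^ 3) (3 * t ^ 2) t := by
        simpa using hasDerivAt_pow 3 t
      have := (((h2.const_mul θ).div_const 4).add ((h3.const_mul ρ).div_const 6)).const_mul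
        (m * ρ ^ 3)
      refine this.congr_deriv ?_
      ring
    · intro t ht
      have ht0 : 0 ≤ t := ht.1
      rw [hode, norm_mul, norm_mul, norm_mul, ← hρ]
      have h1 : ‖((t : ℂ) * z - θ) / 2‖ ≤ (θ + t * ρ) / 2 := by
        rw [norm_div]
        have : ‖(2 : ℂ)‖ = 2 := by norm_num
        rw [this]
        have h := norm_sub_le ((t : ℂ) * z) (θ : ℂ)
        rw [norm_mul, Complex.norm_real, Complex.norm_real, Real.norm_of_nonneg ht0,
          Real.norm_of_nonneg hθ, ← hρ] at h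
        linarith
      have h2 := hz t (Ico_subset_Icc_self ht)
      calc ρ * (‖((t : ℂ) * z - θ) / 2‖ * ‖B (t * z)‖ * ρ)
          ≤ ρ * (((θ + t * ρ) / 2) * (m * (t * ρ)) * ρ) := by gcongr
        _ = m * ρ ^ 3 * (θ * t / 2 + ρ * t ^ 2 / 2) := by ring
  -- second integration
  have step2 : ∀ t ∈ Icc (0 : ℝ) 1, ‖B (t * z) - t * (z * deriv B 0)‖ ≤
      m * ρ ^ 3 * (θ * t ^ 3 / 12 + ρ * t ^ 4 / 24) := by
    have hd : ∀ t : ℝ, HasDerivAt (fun t : ℝ => B (t * z) - t * (z * deriv B 0))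
        (z * deriv B (t * z) - z * deriv B 0) t := by
      intro t
      have h1 : HasDerivAt (fun t : ℝ => B (t * z)) (deriv B (t * z) * z) t :=
        (hB (t * z)).hasDerivAt.comp t (hline t)
      have h2 : HasDerivAt (fun t : ℝ => (t : ℂ) * (z * deriv B 0)) (z * deriv B 0) t := by
        have := (Complex.ofRealCLM.hasDerivAt (x := t)).mul_const (z * deriv B 0)
        simpa using this
      refine (h1.sub h2).congr_deriv ?_
      ring
    refine image_norm_le_of_norm_deriv_right_le_deriv_boundary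
      (f' := fun t : ℝ => z * deriv B (t * z) - z * deriv B 0)
      (B' := fun t => m * ρ ^ 3 * (θ * t ^ 2 / 4 + ρ * t ^ 3 / 6))
      (fun t _ => (hd t).continuousAt.continuousWithinAt)
      (fun t _ => (hd t).hasDerivWithinAt) (by simp [hB0]) ?_ ?_
    · intro t
      have h3 : HasDerivAt (fun t : ℝ => t ^ 3) (3 * t ^ 2) t := by
        simpa using hasDerivAt_pow 3 t
      have h4 : HasDerivAt (fun t : ℝ => t ^ 4) (4 * t ^ 3) t := by
        simpa using hasDerivAt_pow 4 t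
      have := (((h3.const_mul θ).div_const 12).add ((h4.const_mul ρ).div_const 24)).const_mul
        (m * ρ ^ 3)
      refine this.congr_deriv ?_
      ring
    · intro t ht
      exact step1 t (Ico_subset_Icc_self ht)
  have := step2 1 (by norm_num)
  simpa using this

/-- zero-free disc: `B z = z b(z)` with `b` bounded away from zero on the disc of radius `1.01` -/
theorem disc {B : ℂ → ℂ} (hB : Differentiable ℂ B) (hB0 : B 0 = 0) {θ : ℝ} (hθ : 0 ≤ θ)
    (hθ2 : θ ≤ 261 / 50) (hode : ∀ z, deriv (deriv B) z = ((z - θ) / 2) * B z)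
    (hne : ∃ z : ℂ, ‖z‖ ≤ 101 / 100 ∧ B z ≠ 0) :
    ∃ δ : ℝ, 0 < δ ∧ ∀ z : ℂ, ‖z‖ ≤ 101 / 100 → δ ≤ ‖dslope B 0 z‖ := by
  set b := dslope B 0 with hb
  have hbd : Differentiable ℂ b := by
    have h1 : DifferentiableOn ℂ (dslope B 0) univ :=
      (Complex.differentiableOn_dslope univ_mem).mpr hB.differentiableOn
    exact differentiableOn_univ.mp h1
  have hzb : ∀ z, B z = z * b z := by
    intro z
    have := sub_smul_dslope B 0 z
    rw [hB0, sub_zero, sub_zero, smul_eq_mul] at this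
    exact this.symm
  have hb0 : b 0 = deriv B 0 := dslope_same B 0
  obtain ⟨z0, hz0, hmax⟩ := (isCompact_closedBall (0 : ℂ) (101 / 100)).exists_isMaxOn
    ⟨0, by simp; norm_num⟩ hbd.continuous.norm.continuousOn
  set m := ‖b z0‖ with hm
  have hmax' : ∀ z : ℂ, ‖z‖ ≤ 101 / 100 → ‖b z‖ ≤ m := fun z hz => hmax (by simpa using hz)
  have hz0' : ‖z0‖ ≤ 101 / 100 := by simpa using hz0
  have hm0 : 0 ≤ m := norm_nonneg _
  have hest : ∀ z : ℂ, ‖z‖ ≤ 101 / 100 → ‖b z - deriv B 0‖ ≤ 49 / 100 * m := by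
    intro z hz
    rcases eq_or_ne z 0 with rfl | hzne
    · rw [hb0, sub_self, norm_zero]; positivity
    have hzpos : 0 < ‖z‖ := norm_pos_iff.mpr hzne
    have h1 := taylor_bound hB hB0 hθ hode hm0 (z := z) ?_
    · rw [hzb z, ← mul_sub, norm_mul] at h1
      have h2 : ‖z‖ * ‖b z - deriv B 0‖ ≤ ‖z‖ * (49 / 100 * m) := by
        refine h1.trans ?_
        have h3 : ‖z‖ ^ 2 * (θ / 12 + ‖z‖ / 24) ≤ 49 / 100 := by
          have : ‖z‖ ^ 2 ≤ (101 / 100) ^ 2 := by gcongr
          calc ‖z‖ ^ 2 * (θ / 12 + ‖z‖ / 24)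
              ≤ (101 / 100) ^ 2 * ((261 / 50) / 12 + (101 / 100) / 24) := by gcongr
            _ ≤ 49 / 100 := by norm_num
        calc m * ‖z‖ ^ 3 * (θ / 12 + ‖z‖ / 24)
            = ‖z‖ * m * (‖z‖ ^ 2 * (θ / 12 + ‖z‖ / 24)) := by ring
          _ ≤ ‖z‖ * m * (49 / 100) := by gcongr
          _ = _ := by ring
      exact le_of_mul_le_mul_left h2 hzpos
    · intro t ht
      rw [hzb, norm_mul, norm_mul, Complex.norm_real, Real.norm_of_nonneg ht.1]
      have h2 : ‖(t : ℂ) * z‖ ≤ 101 / 100 := by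
        rw [norm_mul, Complex.norm_real, Real.norm_of_nonneg ht.1]
        nlinarith [ht.2, ht.1]
      have h3 := hmax' _ h2
      have h4 : 0 ≤ t * ‖z‖ := mul_nonneg ht.1 (norm_nonneg z)
      nlinarith
  have hmle : m ≤ ‖deriv B 0‖ + 49 / 100 * m := by
    have h1 := hest z0 hz0'
    have h2 := norm_add_le (b z0 - deriv B 0) (deriv B 0)
    rw [sub_add_cancel] at h2
    linarith
  have hβ : 0 < ‖deriv B 0‖ := by
    by_contra hcon
    have h0 : ‖deriv B 0‖ = 0 := le_antisymm (not_lt.mp hcon) (norm_nonneg _)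
    rw [h0] at hmle
    have hm1 : m = 0 := by linarith
    obtain ⟨z, hz, hz2⟩ := hne
    apply hz2
    have := hmax' z hz
    rw [hm1] at this
    rw [hzb z, norm_le_zero_iff.mp this, mul_zero]
  refine ⟨‖deriv B 0‖ / 51, by positivity, fun z hz => ?_⟩
  have h1 := hest z hz
  have h2 := norm_sub_norm_le (deriv B 0) (b z)
  rw [norm_sub_rev] at h2
  linarith

end

end Pool.Agent.V1146.Chern
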