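import Pool.Agent.V1146.Chern.Gap

/-!
# The contradiction
-/

namespace Pool.Agent.V1146.Chern

open Filter Topology MeasureTheory Set ProbabilityTheory

noncomputable section

variable {g : ℝ → ℝ} {A : ℂ → ℂ} {c C0 : ℝ}

/-- the difference -/
def kk (g : ℝ → ℝ) (θ s2 : ℝ) (s : ℝ) : ℝ := g (s + s2) - Real.exp (-2 * θ) * g (s + s2 + 2)

lemma kk_eq (g : ℝ → ℝ) (θ s2 s : ℝ) : kk g θ s2 s =
    Real.exp (θ * (s + s2)) * (nf g θ (s + s2) - nf g θ (s + s2 + 2)) := by
  unfold kk nf
  have e1 : Real.exp (θ * (s + s2)) * (Real.exp (-θ * (s + s2)) * g (s + s2)) = g (s + s2) := by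
    rw [← mul_assoc, ← Real.exp_add]; simp
  have e2 : Real.exp (θ * (s + s2)) * (Real.exp (-θ * (s + s2 + 2)) * g (s + s2 + 2)) =
      Real.exp (-2 * θ) * g (s + s2 + 2) := by
    rw [← mul_assoc, ← Real.exp_add]; congr 2; ring
  rw [mul_sub, e1, e2]

/-- the integral of `s^n e^{αs}` over the negative half line, `n` even -/
lemma moment {n : ℕ} (hn : Even n) {α : ℝ} (hα : 0 < α) :
    IntegrableOn (fun s : ℝ => s ^ n * Real.exp (α * s)) (Iic 0) ∧
    ∫ s in Iic (0 : ℝ), s ^ n * Real.exp (α * s) = n.factorial / α ^ (n + 1) := by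
  have h1 : ∫ t in Ioi (0 : ℝ), t ^ n * Real.exp (-(α * t)) = n.factorial / α ^ (n + 1) := by
    have := Real.integral_rpow_mul_exp_neg_mul_Ioi (a := (n : ℝ) + 1) (by positivity) hα
    rw [Real.Gamma_nat_eq_factorial] at this
    have e : (1 / α) ^ ((n : ℝ) + 1) * (n.factorial : ℝ) = n.factorial / α ^ (n + 1) := by
      have : ((n : ℝ) + 1) = ((n + 1 : ℕ) : ℝ) := by push_cast; ring
      rw [this, Real.rpow_natCast, one_div, inv_pow]
      field_simp
    rw [← e, ← this]
    refine setIntegral_congr_fun measurableSet_Ioi fun t _ => ?_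
    simp only [add_sub_cancel_right]
    rw [Real.rpow_natCast]
  have h2 : ∫ s in Iic (0 : ℝ), s ^ n * Real.exp (α * s) = n.factorial / α ^ (n + 1) := by
    rw [← h1]
    have := integral_comp_neg_Iic (0 : ℝ) (fun t : ℝ => t ^ n * Real.exp (-(α * t)))
    rw [neg_zero] at this
    rw [← this]
    refine setIntegral_congr_fun measurableSet_Iic fun s _ => ?_
    have e3 : (-s) ^ n = s ^ n := hn.neg_pow s
    have e4 : -(α * -s) = α * s := by ring
    simp only [e3, e4]
  refine ⟨?_, h2⟩
  by_contra hcon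
  have h0 := integral_undef hcon
  rw [h2] at h0
  have : (0 : ℝ) < n.factorial / α ^ (n + 1) := by positivity
  linarith

theorem contra (S : Setup g A c C0) (hconv : ConvProd g) : False := by
  obtain ⟨θ, hrate, δ, hδ, hdisc⟩ := rate_disc S
  obtain ⟨c', s2, hc', hgap⟩ := gap S hconv hrate (nf_bdd S hrate hδ hdisc)
  have hθ := hrate.pos
  have hgc := S.cont
  have hgnn : ∀ s, 0 ≤ g s := fun s => (S.pos s).le
  -- the function `k`
  set k := kk g θ s2 with hk
  have hkc : Continuous k := by rw [hk]; unfold kk; fun_prop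
  have hknn : ∀ s, 0 ≤ k s := by
    intro s
    rw [hk, kk_eq]
    have := hrate.anti (show s + s2 ≤ s + s2 + 2 by linarith)
    exact mul_nonneg (Real.exp_pos _).le (by linarith)
  have hkle : ∀ s, k s ≤ g (s + s2) := by
    intro s
    have := mul_pos (Real.exp_pos (-2 * θ)) (S.pos (s + s2 + 2))
    rw [hk]
    unfold kk
    linarith
  set c2 := c' * Real.exp ((θ + 1) * s2) with hc2
  have hc2pos : 0 < c2 := by positivity
  have hkge : ∀ s ≤ 0, c2 * Real.exp ((θ + 1) * s) ≤ k s := by
    intro s hs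
    have h1 := hgap (s + s2) (by linarith)
    rw [hk, kk_eq]
    have e : c2 * Real.exp ((θ + 1) * s) =
        Real.exp (θ * (s + s2)) * (c' * Real.exp (s + s2)) := by
      have : Real.exp ((θ + 1) * s2) * Real.exp ((θ + 1) * s) =
          Real.exp (θ * (s + s2)) * Real.exp (s + s2) := by
        rw [← Real.exp_add, ← Real.exp_add]; congr 1; ring
      rw [hc2, mul_assoc, this]; ring
    rw [e]
    exact mul_le_mul_of_nonneg_left h1 (Real.exp_pos _).le
  have hkint : ∀ w : ℝ, Integrable (fun s => Real.exp (w * s) * g s) →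
      Integrable (fun s => Real.exp (w * s) * k s) := by
    intro w hw
    have h1 := (hw.comp_add_right s2).const_mul (Real.exp (-w * s2))
    refine h1.mono' (by fun_prop) (Eventually.of_forall fun s => ?_)
    rw [Real.norm_of_nonneg (mul_nonneg (Real.exp_pos _).le (hknn s))]
    have e : Real.exp (-w * s2) * (Real.exp (w * (s + s2)) * g (s + s2)) =
        Real.exp (w * s) * g (s + s2) := by
      rw [← mul_assoc, ← Real.exp_add]; congr 2; ring
    rw [e]
    exact mul_le_mul_of_nonneg_left (hkle s) (Real.exp_pos _).le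
  -- the parameters
  obtain ⟨δ', hδ', hi2⟩ := exists_right S.mono S.cont S.pos S.int
  set z0 := min (θ / 2) (1 / 1000) with hz0
  have hz0pos : 0 < z0 := lt_min (by linarith) (by norm_num)
  have hz0a : z0 ≤ θ / 2 := min_le_left _ _
  have hz0b : z0 ≤ 1 / 1000 := min_le_right _ _
  set w0 : ℝ := z0 - θ with hw0
  set ρ : ℝ := z0 + 501 / 500 with hρ
  set α : ℝ := z0 + 1 with hα
  have hαpos : 0 < α := by linarith
  have hαρ : α < ρ := by linarith
  have hρpos : 0 < ρ := by linarith
  set r : ℝ := θ - z0 / 2 with hr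
  have hrpos : 0 < r := by linarith
  have hir := hrate.int r hrpos (by linarith)
  -- the analytic function
  set e1 := dslope (fun z : ℂ => 1 - Complex.exp (-2 * z)) 0 with he1
  set b := dslope (BB A c θ) 0 with hb
  have hB0 : BB A c θ 0 = 0 := by
    have h0 := zero_theta S hrate
    have e : (c : ℂ) * ((0 : ℂ) - θ) = ((c * (-θ) : ℝ) : ℂ) := by push_cast; ring
    unfold BB
    rw [e, h0]
  have hbd : Differentiable ℂ b := by
    have h1 : DifferentiableOn ℂ (dslope (BB A c θ) 0) univ :=
      (Complex.differentiableOn_dslope univ_mem).mpr (BB_diff S θ).differentiableOn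
    exact differentiableOn_univ.mp h1
  have he1d : Differentiable ℂ e1 := by
    have h0 : Differentiable ℂ (fun z : ℂ => 1 - Complex.exp (-2 * z)) := by fun_prop
    have h1 : DifferentiableOn ℂ (dslope (fun z : ℂ => 1 - Complex.exp (-2 * z)) 0) univ :=
      (Complex.differentiableOn_dslope univ_mem).mpr h0.differentiableOn
    exact differentiableOn_univ.mp h1
  have hzb : ∀ z, z * b z = BB A c θ z := by
    intro z
    have := sub_smul_dslope (BB A c θ) 0 z
    rwa [hB0, sub_zero, sub_zero, smul_eq_mul] at this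
  have hze : ∀ z : ℂ, z * e1 z = 1 - Complex.exp (-2 * z) := by
    intro z
    have h := sub_smul_dslope (fun z : ℂ => 1 - Complex.exp (-2 * z)) 0 z
    rw [sub_zero, smul_eq_mul, ← he1] at h
    rw [h]
    simp
  set N : ℂ → ℂ := fun w => Complex.exp (-w * s2) * C0 * e1 (w + θ) / b (w + θ) with hN
  have hbne : ∀ z : ℂ, ‖z‖ ≤ 101 / 100 → b z ≠ 0 := by
    intro z hz h0
    have := hdisc z hz
    rw [h0, norm_zero] at this
    linarith
  have hNd : ∀ w : ℂ, ‖w + θ‖ ≤ 101 / 100 → DifferentiableAt ℂ N w := by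
    intro w hw
    have h1 : DifferentiableAt ℂ (fun w : ℂ => Complex.exp (-w * s2) * C0 * e1 (w + θ)) w := by
      have : DifferentiableAt ℂ (fun w : ℂ => e1 (w + θ)) w :=
        (he1d.comp (by fun_prop : Differentiable ℂ (fun w : ℂ => w + (θ : ℂ)))) w
      fun_prop
    have h2 : DifferentiableAt ℂ (fun w : ℂ => b (w + θ)) w :=
      (hbd.comp (by fun_prop : Differentiable ℂ (fun w : ℂ => w + (θ : ℂ)))) w
    exact h1.div h2 (hbne _ hw)
  -- the identity near `w0`
  have hident : ∀ w : ℂ, -r < w.re → w.re < δ' → w + θ ≠ 0 → complexMGF id (ms k) w = N w := by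
    intro w hw1 hw2 hw3
    have hM := strip S.cont hgnn S.entire S.A0 S.FT hrpos hδ' hir hi2 hw1 hw2
    rw [cmgf_eq hkc hknn]
    rw [cmgf_eq hgc hgnn] at hM
    set G : ℝ → ℂ := fun s => (g s : ℂ) * Complex.exp (w * s) with hG
    have hGint : Integrable G := by
      have h1 := integrable_cexp_mul_of_re_mem_interior_integrableExpSet
        (X := (id : ℝ → ℝ)) (μ := ms g) (z := w) (interior_expSet hgc hgnn hir hi2 hw1 hw2)
      rw [integrable_ms hgc hgnn] at h1
      refine h1.congr (Eventually.of_forall fun s => ?_)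
      simp [hG]
    have e : ∀ s : ℝ, (k s : ℂ) * Complex.exp (w * s) =
        Complex.exp (-w * s2) * G (s + s2) -
          Complex.exp (-2 * θ) * Complex.exp (-w * (s2 + 2)) * G (s + (s2 + 2)) := by
      intro s
      simp only [hk, hG, kk]
      have f1 : Complex.exp (w * s) = Complex.exp (-w * s2) * Complex.exp (w * ((s + s2 : ℝ) : ℂ)) := by
        rw [← Complex.exp_add]; congr 1; push_cast; ring
      have f2 : Complex.exp (w * s) =
          Complex.exp (-w * (s2 + 2)) * Complex.exp (w * ((s + (s2 + 2) : ℝ) : ℂ)) := by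
        rw [← Complex.exp_add]; congr 1; push_cast; ring
      have f3 : s + s2 + 2 = s + (s2 + 2) := by ring
      rw [f3]
      push_cast
      push_cast at f1 f2
      rw [sub_mul]
      nth_rw 1 [f1]
      rw [f2]
      ring
    have hint2 : ∫ s : ℝ, (k s : ℂ) * Complex.exp (w * s) =
        Complex.exp (-w * s2) * (∫ s, G s) -
          Complex.exp (-2 * θ) * Complex.exp (-w * (s2 + 2)) * (∫ s, G s) := by
      rw [integral_congr_ae (Eventually.of_forall e)]
      rw [integral_sub ((hGint.comp_add_right s2).const_mul _)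
        ((hGint.comp_add_right (s2 + 2)).const_mul _)]
      rw [integral_const_mul, integral_const_mul, integral_add_right_eq_self,
        integral_add_right_eq_self]
    rw [hint2]
    have hBB : A (c * w) = (w + θ) * b (w + θ) := by
      rw [hzb]; unfold BB; congr 1; ring
    rw [hBB] at hM
    have hE := hze (w + θ)
    have hE2 : Complex.exp (-2 * θ) * Complex.exp (-w * (s2 + 2)) =
        Complex.exp (-w * s2) * Complex.exp (-2 * (w + θ)) := by
      rw [← Complex.exp_add, ← Complex.exp_add]; congr 1; ring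
    rw [hE2]
    have hbw : b (w + θ) ≠ 0 := by
      intro h0
      rw [h0, mul_zero, mul_zero] at hM
      exact S.C0pos.ne' (by exact_mod_cast hM.symm)
    simp only [hN]
    rw [eq_div_iff hbw]
    have hM' : (∫ s, G s) * ((w + θ) * b (w + θ)) = C0 := hM
    have : (Complex.exp (-w * s2) * (∫ s, G s) -
        Complex.exp (-w * s2) * Complex.exp (-2 * (w + θ)) * (∫ s, G s)) * b (w + θ) =
        Complex.exp (-w * s2) * (∫ s, G s) * (1 - Complex.exp (-2 * (w + θ))) * b (w + θ) := by
      ring
    rw [this, ← hE]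
    linear_combination Complex.exp (-w * s2) * e1 (w + θ) * hM'
  -- equality of iterated derivatives
  have hw0re : ((w0 : ℝ) : ℂ).re = w0 := Complex.ofReal_re _
  have hev : complexMGF id (ms k) =ᶠ[𝓝 (w0 : ℂ)] N := by
    have o1 : ∀ᶠ w : ℂ in 𝓝 (w0 : ℂ), -r < w.re :=
      (isOpen_lt continuous_const Complex.continuous_re).mem_nhds
        (by change -r < ((w0 : ℝ) : ℂ).re; rw [hw0re]; linarith)
    have o2 : ∀ᶠ w : ℂ in 𝓝 (w0 : ℂ), w.re < δ' :=
      (isOpen_lt Complex.continuous_re continuous_const).mem_nhds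
        (by change ((w0 : ℝ) : ℂ).re < δ'; rw [hw0re]; linarith)
    have o3 : ∀ᶠ w : ℂ in 𝓝 (w0 : ℂ), w + θ ≠ 0 := by
      have hcont : Continuous (fun w : ℂ => w + (θ : ℂ)) := by fun_prop
      refine hcont.continuousAt.eventually_ne ?_
      have : ((w0 : ℝ) : ℂ) + θ = ((z0 : ℝ) : ℂ) := by rw [hw0]; push_cast; ring
      rw [this]
      exact_mod_cast hz0pos.ne'
    filter_upwards [o1, o2, o3] with w h1 h2 h3 using hident w h1 h2 h3
  -- Cauchy estimate
  have hball : ∀ w ∈ Metric.closedBall (w0 : ℂ) ρ, ‖w + θ‖ ≤ 101 / 100 := by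
    intro w hw
    rw [mem_closedBall_iff_norm] at hw
    have e : w + θ = (w - w0) + ((z0 : ℝ) : ℂ) := by rw [hw0]; push_cast; ring
    rw [e]
    refine (norm_add_le _ _).trans ?_
    rw [Complex.norm_real, Real.norm_of_nonneg hz0pos.le]
    linarith
  have hNcont : ContinuousOn N (Metric.closedBall (w0 : ℂ) ρ) :=
    fun w hw => (hNd w (hball w hw)).continuousAt.continuousWithinAt
  obtain ⟨Bd, hBd⟩ := (isCompact_closedBall (w0 : ℂ) ρ).exists_bound_of_continuousOn hNcont
  have hBd0 : 0 ≤ Bd := (norm_nonneg _).trans (hBd w0 (Metric.mem_closedBall_self hρpos.le))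
  have hDC : DiffContOnCl ℂ N (Metric.ball (w0 : ℂ) ρ) := by
    refine DifferentiableOn.diffContOnCl fun w hw => ?_
    exact (hNd w (hball w (Metric.closure_ball_subset_closedBall hw))).differentiableWithinAt
  have hCauchy : ∀ n : ℕ, ‖iteratedDeriv n N w0‖ ≤ n.factorial * Bd / ρ ^ n := fun n =>
    Complex.norm_iteratedDeriv_le_of_forall_mem_sphere_norm_le n hρpos hDC
      fun z hz => hBd z (Metric.sphere_subset_closedBall hz)
  -- lower bound of even derivatives
  have hlow : ∀ n : ℕ, Even n → c2 * (n.factorial / α ^ (n + 1)) ≤ ‖iteratedDeriv n N w0‖ := by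
    intro n hn
    have hmem : w0 ∈ interior (integrableExpSet id (ms k)) :=
      interior_expSet hkc hknn (hkint _ hir) (hkint _ hi2) (by linarith) (by linarith)
    rw [← hev.iteratedDeriv_eq n, iteratedDeriv_complexMGF (by rw [hw0re]; exact hmem) n]
    rw [integral_ms hkc hknn]
    have e : ∀ s : ℝ, k s • (((id s : ℝ) : ℂ) ^ n * Complex.exp ((w0 : ℂ) * (id s : ℝ))) =
        ((k s * (s ^ n * Real.exp (w0 * s)) : ℝ) : ℂ) := by
      intro s
      rw [Complex.real_smul]
      push_cast
      simp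
    rw [integral_congr_ae (Eventually.of_forall e), integral_complex_ofReal, Complex.norm_real]
    refine le_trans ?_ (le_abs_self _)
    -- integrability
    have hI : Integrable (fun s => k s * (s ^ n * Real.exp (w0 * s))) := by
      have h1 := integrable_pow_mul_exp_of_mem_interior_integrableExpSet hmem n
      rw [integrable_ms hkc hknn] at h1
      refine h1.congr (Eventually.of_forall fun s => ?_)
      simp
    obtain ⟨m1, m2⟩ := moment hn hαpos
    rw [← m2, ← integral_const_mul]
    have h1 : ∫ s in Iic (0 : ℝ), c2 * (s ^ n * Real.exp (α * s)) ≤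
        ∫ s in Iic (0 : ℝ), k s * (s ^ n * Real.exp (w0 * s)) := by
      refine setIntegral_mono_on (m1.const_mul _) hI.integrableOn measurableSet_Iic
        fun s hs => ?_
      have h2 := hkge s hs
      have e2 : Real.exp (α * s) = Real.exp ((θ + 1) * s) * Real.exp (w0 * s) := by
        rw [← Real.exp_add]; congr 1; rw [hα, hw0]; ring
      have h3 : 0 ≤ s ^ n * Real.exp (w0 * s) := mul_nonneg (hn.pow_nonneg s) (Real.exp_pos _).le
      rw [e2]
      calc c2 * (s ^ n * (Real.exp ((θ + 1) * s) * Real.exp (w0 * s)))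
          = c2 * Real.exp ((θ + 1) * s) * (s ^ n * Real.exp (w0 * s)) := by ring
        _ ≤ k s * (s ^ n * Real.exp (w0 * s)) := mul_le_mul_of_nonneg_right h2 h3
    refine h1.trans ?_
    exact setIntegral_le_integral hI (Eventually.of_forall fun s =>
      mul_nonneg (hknn s) (mul_nonneg (hn.pow_nonneg s) (Real.exp_pos _).le))
  -- the contradiction
  have hfin : ∀ j : ℕ, c2 * (ρ / α) ^ (2 * j) ≤ Bd * α := by
    intro j
    have h1 := (hlow (2 * j) (even_two_mul j)).trans (hCauchy (2 * j))
    have hf : (0 : ℝ) < (2 * j).factorial := by exact_mod_cast Nat.factorial_pos _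
    have h2 : c2 * (1 / α ^ (2 * j + 1)) ≤ Bd / ρ ^ (2 * j) := by
      have e : c2 * (((2 * j).factorial : ℝ) / α ^ (2 * j + 1)) =
          ((2 * j).factorial : ℝ) * (c2 * (1 / α ^ (2 * j + 1))) := by ring
      have e' : ((2 * j).factorial : ℝ) * Bd / ρ ^ (2 * j) =
          ((2 * j).factorial : ℝ) * (Bd / ρ ^ (2 * j)) := by ring
      rw [e, e'] at h1
      exact le_of_mul_le_mul_left h1 hf
    have hαn : 0 < α ^ (2 * j) := by positivity
    have hρn : 0 < ρ ^ (2 * j) := by positivity
    rw [le_div_iff₀ hρn] at h2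
    rw [div_pow]
    calc c2 * (ρ ^ (2 * j) / α ^ (2 * j))
        = (c2 * (1 / α ^ (2 * j + 1)) * ρ ^ (2 * j)) * α := by
          rw [pow_succ]; field_simp
      _ ≤ Bd * α := mul_le_mul_of_nonneg_right h2 hαpos.le
  have hq : 1 < (ρ / α) ^ 2 := by
    have : 1 < ρ / α := by rw [one_lt_div hαpos]; exact hαρ
    nlinarith
  obtain ⟨j, hj⟩ := pow_unbounded_of_one_lt (Bd * α / c2) hq
  have h1 := hfin j
  rw [pow_mul] at h1
  rw [div_lt_iff₀ hc2pos] at hj
  linarith

end

end Pool.Agent.V1146.Chern
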