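import Pool.Agent.V1146.Chern.Theta

/-!
# The gap `f(s) - f(s+2) ≥ c e^s`
-/

namespace Pool.Agent.V1146.Chern

open Filter Topology MeasureTheory Set ProbabilityTheory

noncomputable section

/-- convexity of the products in `cosh t` -/
def ConvProd (g : ℝ → ℝ) : Prop :=
  ∀ a t1 t2 : ℝ, 0 < t1 → t1 < t2 →
    (Real.cosh t2 - 1) * (g (a + t1) * g (a - t1)) ≤
      (Real.cosh t2 - Real.cosh t1) * (g a * g a) +
        (Real.cosh t1 - 1) * (g (a + t2) * g (a - t2))

variable {g : ℝ → ℝ} {A : ℂ → ℂ} {c C0 : ℝ}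

lemma ConvProd.nf (h : ConvProd g) (θ : ℝ) : ConvProd (nf g θ) := by
  intro a t1 t2 h1 h2
  have := h a t1 t2 h1 h2
  have e : ∀ t : ℝ, Chern.nf g θ (a + t) * Chern.nf g θ (a - t) =
      Real.exp (-2 * θ * a) * (g (a + t) * g (a - t)) := by
    intro t
    unfold Chern.nf
    have : Real.exp (-2 * θ * a) = Real.exp (-θ * (a + t)) * Real.exp (-θ * (a - t)) := by
      rw [← Real.exp_add]; congr 1; ring
    rw [this]; ring
  have e0 : Chern.nf g θ a * Chern.nf g θ a = Real.exp (-2 * θ * a) * (g a * g a) := by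
    simpa using e 0
  rw [e, e, e0]
  have hexp := Real.exp_pos (-2 * θ * a)
  nlinarith

lemma nf_bdd (S : Setup g A c C0) {θ : ℝ} (h : IsRate g θ) {δ : ℝ} (hδ : 0 < δ)
    (hdisc : ∀ z : ℂ, ‖z‖ ≤ 101 / 100 → δ ≤ ‖dslope (BB A c θ) 0 z‖) (x : ℝ) :
    nf g θ x ≤ C0 / δ := by
  have hθ := h.pos
  have hB0 : BB A c θ 0 = 0 := by
    have h0 := zero_theta S h
    have e : (c : ℂ) * ((0 : ℂ) - θ) = ((c * (-θ) : ℝ) : ℂ) := by push_cast; ring
    unfold BB
    rw [e, h0]
  have hb : ∀ ε : ℝ, 0 < ε → ε ≤ min (θ / 2) 1 → nf g θ x * Real.exp (ε * x) ≤ C0 / δ := by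
    intro ε hε hε2
    have hε3 : ε ≤ θ / 2 := hε2.trans (min_le_left _ _)
    have hε4 : ε ≤ 1 := hε2.trans (min_le_right _ _)
    have hr := h.int (θ - ε / 2) (by linarith) (by linarith)
    obtain ⟨hR, hA⟩ := real_rel S (by linarith : 0 < θ - ε / 2) hr (w := -θ + ε)
      (by linarith) (by linarith)
    have h1 := lower S h.anti (w := -θ + ε) (by linarith)
      (h.intw S (by linarith) (by linarith)) x
    have e1 : -θ + ε + θ = ε := by ring
    rw [e1] at h1
    have h2 := hdisc (ε : ℂ) (by rw [Complex.norm_real, Real.norm_of_nonneg hε.le]; linarith)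
    have h3 : (ε : ℂ) * dslope (BB A c θ) 0 ε = BB A c θ ε := by
      have := sub_smul_dslope (BB A c θ) 0 (ε : ℂ)
      rwa [hB0, sub_zero, sub_zero, smul_eq_mul] at this
    have h4 : ε * δ ≤ ‖BB A c θ ε‖ := by
      rw [← h3, norm_mul, Complex.norm_real, Real.norm_of_nonneg hε.le]
      gcongr
    have h5 : ‖BB A c θ ε‖ = C0 / R g (-θ + ε) := by
      unfold BB
      have e : (c : ℂ) * ((ε : ℂ) - θ) = ((c * (-θ + ε) : ℝ) : ℂ) := by push_cast; ring
      rw [e, hA, Complex.norm_real, Real.norm_of_nonneg (div_pos S.C0pos hR).le]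
    rw [h5, le_div_iff₀ hR] at h4
    rw [div_le_iff₀ hε] at h1
    rw [le_div_iff₀ hδ]
    nlinarith
  have hT : Tendsto (fun ε : ℝ => nf g θ x * Real.exp (ε * x)) (𝓝[>] 0) (𝓝 (nf g θ x)) := by
    have : Continuous (fun ε : ℝ => nf g θ x * Real.exp (ε * x)) := by fun_prop
    have h2 := this.tendsto 0
    simp only [zero_mul, Real.exp_zero, mul_one] at h2
    exact h2.mono_left nhdsWithin_le_nhds
  refine le_of_tendsto hT ?_
  filter_upwards [Ioc_mem_nhdsGT (show (0 : ℝ) < min (θ / 2) 1 from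
    lt_min (by linarith) one_pos)] with ε hε
  exact hb ε hε.1 hε.2

lemma nf_pos (S : Setup g A c C0) (θ x : ℝ) : 0 < nf g θ x :=
  mul_pos (Real.exp_pos _) (S.pos x)

lemma nf_lim (S : Setup g A c C0) {θ : ℝ} (h : IsRate g θ) {K : ℝ}
    (hK : ∀ x, nf g θ x ≤ K) : ∃ C : ℝ, 0 < C ∧ (∀ x, nf g θ x ≤ C) ∧
      Tendsto (nf g θ) atBot (𝓝 C) ∧ ∃ s0, nf g θ s0 < C := by
  have hbdd : BddAbove (range (nf g θ)) := ⟨K, by rintro _ ⟨x, rfl⟩; exact hK x⟩
  refine ⟨⨆ x, nf g θ x, ?_, fun x => le_ciSup hbdd x, tendsto_atBot_ciSup h.anti hbdd, ?_⟩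
  · exact lt_of_lt_of_le (nf_pos S θ 0) (le_ciSup hbdd 0)
  · by_contra hcon
    push Not at hcon
    set C := ⨆ x, nf g θ x with hC
    have hCpos : 0 < C := lt_of_lt_of_le (nf_pos S θ 0) (le_ciSup hbdd 0)
    have h1 : IntegrableOn g (Ici 0) := S.int.integrableOn
    have h2 : IntegrableOn (fun _ : ℝ => C) (Ici 0) := by
      refine Integrable.mono' h1 (by fun_prop) ?_
      filter_upwards [ae_restrict_mem measurableSet_Ici] with s hs
      have hs' : 0 ≤ s := hs
      rw [Real.norm_of_nonneg hCpos.le]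
      refine (hcon s).trans ?_
      unfold nf
      have h3 : Real.exp (-θ * s) ≤ 1 := by
        rw [Real.exp_le_one_iff]
        have := h.pos
        nlinarith
      have := S.pos s
      nlinarith
    rw [integrableOn_const_iff] at h2
    rcases h2 with h2 | h2
    · exact hCpos.ne' (by simpa using h2)
    · simp at h2

lemma gap (S : Setup g A c C0) (hconv : ConvProd g) {θ : ℝ} (h : IsRate g θ) {K : ℝ}
    (hK : ∀ x, nf g θ x ≤ K) :
    ∃ c' s2 : ℝ, 0 < c' ∧ ∀ s ≤ s2, c' * Real.exp s ≤ nf g θ s - nf g θ (s + 2) := by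
  obtain ⟨C, hC, hle, hlim, s0, hs0⟩ := nf_lim S h hK
  set f := nf g θ with hf
  have hfpos : ∀ x, 0 < f x := nf_pos S θ
  set κ := (C ^ 2 - C * f s0) / 2 with hκ
  have hκpos : 0 < κ := by
    have : 0 < C * (C - f s0) := mul_pos hC (by linarith)
    rw [hκ]; nlinarith
  have hlim2 : Tendsto (fun a => f a ^ 2 - C * f s0) atBot (𝓝 (C ^ 2 - C * f s0)) :=
    (hlim.pow 2).sub_const _
  have hev : ∀ᶠ a in atBot, κ < f a ^ 2 - C * f s0 :=
    hlim2.eventually_const_lt (by rw [hκ] at hκpos ⊢; linarith)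
  obtain ⟨a1, ha1⟩ := (hev.and (eventually_le_atBot (s0 - 2))).exists_forall_of_atBot
  have hc1 : 0 < Real.cosh 1 - 1 := by
    have := Real.one_lt_cosh.mpr (one_ne_zero)
    linarith
  refine ⟨(Real.cosh 1 - 1) * κ / C * Real.exp (1 - s0), a1 - 1, by positivity, ?_⟩
  intro s hs
  set a := s + 1 with ha
  obtain ⟨hA1, hA2⟩ := ha1 a (by linarith)
  have hcv := (hconv.nf θ) a 1 (s0 - a) one_pos (by linarith)
  have e1 : a + (s0 - a) = s0 := by ring
  have e2 : a - 1 = s := by rw [ha]; ring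
  have e3 : a + 1 = s + 2 := by rw [ha]; ring
  rw [e1, e2, e3] at hcv
  rw [← hf] at hcv
  set D := f s - f (s + 2) with hD
  have hD0 : 0 ≤ D := by
    have := h.anti (show s ≤ s + 2 by linarith)
    rw [hD]
    linarith
  have hfa : f a ≤ f s := h.anti (by linarith)
  have h1 : f a * f a - f (s + 2) * f s ≤ C * D := by
    have h2 : f a * f a ≤ f s * f s := mul_le_mul hfa hfa (hfpos a).le (hfpos s).le
    have h3 : f s * D ≤ C * D := mul_le_mul_of_nonneg_right (hle s) hD0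
    have h4 : f s * D = f s * f s - f (s + 2) * f s := by rw [hD]; ring
    linarith
  have h5 : f s0 * f (a - (s0 - a)) ≤ f s0 * C :=
    mul_le_mul_of_nonneg_left (hle _) (hfpos s0).le
  have h6 : (Real.cosh 1 - 1) * κ ≤ (Real.cosh (s0 - a) - 1) * (f a * f a - f (s + 2) * f s) := by
    have h7 : (Real.cosh 1 - 1) * (f s0 * f (a - (s0 - a))) ≤ (Real.cosh 1 - 1) * (f s0 * C) :=
      mul_le_mul_of_nonneg_left h5 hc1.le
    have h8 : (Real.cosh 1 - 1) * κ ≤ (Real.cosh 1 - 1) * (f a ^ 2 - C * f s0) :=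
      mul_le_mul_of_nonneg_left hA1.le hc1.le
    nlinarith
  have hcosh1 : 0 ≤ Real.cosh (s0 - a) - 1 := by
    have := Real.one_le_cosh (s0 - a); linarith
  have hcosh2 : Real.cosh (s0 - a) - 1 ≤ Real.exp (s0 - a) := by
    rw [Real.cosh_eq]
    have h9 : Real.exp (-(s0 - a)) ≤ 1 := Real.exp_le_one_iff.mpr (by linarith)
    have h10 := Real.exp_pos (s0 - a)
    linarith
  have h11 : (Real.cosh 1 - 1) * κ ≤ Real.exp (s0 - a) * (C * D) := by
    calc _ ≤ (Real.cosh (s0 - a) - 1) * (f a * f a - f (s + 2) * f s) := h6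
      _ ≤ (Real.cosh (s0 - a) - 1) * (C * D) := mul_le_mul_of_nonneg_left h1 hcosh1
      _ ≤ _ := mul_le_mul_of_nonneg_right hcosh2 (by positivity)
  have e4 : (Real.cosh 1 - 1) * κ / C * Real.exp (1 - s0) * Real.exp s =
      (Real.cosh 1 - 1) * κ / (C * Real.exp (s0 - a)) := by
    have : Real.exp (1 - s0) * Real.exp s = (Real.exp (s0 - a))⁻¹ := by
      rw [← Real.exp_add, ← Real.exp_neg]; congr 1; rw [ha]; ring
    rw [mul_assoc, this]
    field_simp
  rw [e4, div_le_iff₀ (by positivity)]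
  linarith

end

end Pool.Agent.V1146.Chern
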