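import Pool.Agent.V1146.Chern.Final

/-!
# Hyperbolic complete monotonicity, the Airy function, and the final theorem
-/

namespace Pool.Agent.V1146.Chern

open Filter Topology MeasureTheory Set
open scoped ContDiff

noncomputable section

/-- complete monotonicity on `(2,∞)` -/
def CMOn (F : ℝ → ℝ) : Prop :=
  ContDiffOn ℝ ∞ F (Ioi 2) ∧ ∀ n : ℕ, ∀ w : ℝ, 2 < w → 0 ≤ (-1) ^ n * iteratedDeriv n F w

/-- hyperbolic complete monotonicity of `p : (0,∞) → [0,∞)`: for every `u > 0` the product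
`p (u v) p (u / v)` is, as a function of `w = v + 1 / v`, completely monotone on `(2,∞)` -/
def HM (p : ℝ → ℝ) : Prop :=
  ∀ u : ℝ, 0 < u → ∃ F : ℝ → ℝ, CMOn F ∧
    ∀ v : ℝ, 0 < v → v ≠ 1 → p (u * v) * p (u / v) = F (v + 1 / v)

/-- `k ∈ log(HM_∞)`: the function `x ↦ k (log x) / x` on `(0,∞)` is hyperbolically completely
monotone -/
def LogHM (k : ℝ → ℝ) : Prop := HM (fun x => k (Real.log x) / x)

/-- `A` is the Airy function `Ai`: the entire solution of `A'' = z A` with
`A(0) = 3^(-2/3) / Γ(2/3)` and `A'(0) = - 3^(-1/3) / Γ(1/3)` -/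
structure IsAiry (A : ℂ → ℂ) : Prop where
  entire : Differentiable ℂ A
  ode : ∀ z, deriv (deriv A) z = z * A z
  value : A 0 = (((3 : ℝ) ^ (-(2 / 3) : ℝ) / Real.Gamma (2 / 3) : ℝ) : ℂ)
  slope : deriv A 0 = ((-((3 : ℝ) ^ (-(1 / 3) : ℝ) / Real.Gamma (1 / 3)) : ℝ) : ℂ)

section
variable {g : ℝ → ℝ}

lemma prod_eq (h : LogHM g) (a : ℝ) : ∃ F : ℝ → ℝ, CMOn F ∧
    ∀ t : ℝ, 0 < t → g (a + t) * g (a - t) = Real.exp (2 * a) * F (2 * Real.cosh t) := by
  obtain ⟨F, hF, hv⟩ := h (Real.exp a) (Real.exp_pos a)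
  refine ⟨F, hF, fun t ht => ?_⟩
  have h1 := hv (Real.exp t) (Real.exp_pos t) (by
    intro h0
    have := (Real.exp_eq_one_iff t).mp h0
    linarith)
  have e1 : Real.exp a * Real.exp t = Real.exp (a + t) := (Real.exp_add _ _).symm
  have e2 : Real.exp a / Real.exp t = Real.exp (a - t) := (Real.exp_sub _ _).symm
  have e3 : Real.exp t + 1 / Real.exp t = 2 * Real.cosh t := by
    rw [Real.cosh_eq, one_div, ← Real.exp_neg]; ring
  simp only at h1
  rw [e1, e2, e3, Real.log_exp, Real.log_exp] at h1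
  rw [← h1]
  have e4 : Real.exp (2 * a) = Real.exp (a + t) * Real.exp (a - t) := by
    rw [← Real.exp_add]; congr 1; ring
  rw [e4]
  have := Real.exp_pos (a + t)
  have := Real.exp_pos (a - t)
  field_simp

lemma CMOn.antitoneOn {F : ℝ → ℝ} (h : CMOn F) : AntitoneOn F (Ioi 2) := by
  refine antitoneOn_of_deriv_nonpos (convex_Ioi 2) h.1.continuousOn ?_ ?_
  · rw [interior_Ioi]
    exact h.1.differentiableOn (by simp)
  · intro x hx
    rw [interior_Ioi] at hx
    have := h.2 1 x hx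
    rw [iteratedDeriv_one] at this
    linarith

lemma CMOn.convexOn {F : ℝ → ℝ} (h : CMOn F) : ConvexOn ℝ (Ioi 2) F := by
  have h1 : DifferentiableOn ℝ F (Ioi 2) := h.1.differentiableOn (by simp)
  have h2 : ContDiffOn ℝ 1 (deriv F) (Ioi 2) :=
    ((contDiffOn_succ_iff_deriv_of_isOpen (n := 1) isOpen_Ioi).mp
      (h.1.of_le (by norm_cast))).2.2
  refine convexOn_of_deriv2_nonneg (convex_Ioi 2) h1.continuousOn (by rwa [interior_Ioi]) ?_ ?_
  · rw [interior_Ioi]
    exact h2.differentiableOn (by norm_num)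
  · intro x hx
    rw [interior_Ioi] at hx
    have := h.2 2 x hx
    rw [iteratedDeriv_eq_iterate] at this
    simpa using this

lemma two_lt {t : ℝ} (ht : 0 < t) : 2 < 2 * Real.cosh t := by
  have := Real.one_lt_cosh.mpr ht.ne'
  linarith

lemma monoProd (hc : Continuous g) (h : LogHM g) : MonoProd g := by
  intro a t t' ht htt
  obtain ⟨F, hF, hFt⟩ := prod_eq h a
  have key : ∀ t : ℝ, 0 < t → t ≤ t' → g (a + t') * g (a - t') ≤ g (a + t) * g (a - t) := by
    intro t ht htt
    rw [hFt t ht, hFt t' (by linarith)]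
    refine mul_le_mul_of_nonneg_left ?_ (Real.exp_pos _).le
    refine hF.antitoneOn (two_lt ht) (two_lt (by linarith)) ?_
    have : Real.cosh t ≤ Real.cosh t' := by
      rw [Real.cosh_le_cosh, abs_of_pos ht, abs_of_pos (by linarith)]
      exact htt
    linarith
  rcases ht.eq_or_lt with h0 | h0
  · subst h0
    rcases htt.eq_or_lt with h1 | h1
    · rw [← h1]
    · have hT : Tendsto (fun e : ℝ => g (a + e) * g (a - e)) (𝓝[>] 0)
          (𝓝 (g (a + 0) * g (a - 0))) := by
        have : Continuous (fun e : ℝ => g (a + e) * g (a - e)) := by fun_prop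
        exact (this.tendsto 0).mono_left nhdsWithin_le_nhds
      refine ge_of_tendsto hT ?_
      filter_upwards [Ioc_mem_nhdsGT h1] with e he
      exact key e he.1 he.2
  · exact key t h0 htt

lemma convProd (hc : Continuous g) (h : LogHM g) : ConvProd g := by
  intro a t1 t2 h1 h2
  obtain ⟨F, hF, hFt⟩ := prod_eq h a
  have key : ∀ e : ℝ, 0 < e → e < t1 →
      (Real.cosh t2 - Real.cosh e) * (g (a + t1) * g (a - t1)) ≤
        (Real.cosh t2 - Real.cosh t1) * (g (a + e) * g (a - e)) +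
        (Real.cosh t1 - Real.cosh e) * (g (a + t2) * g (a - t2)) := by
    intro e he he1
    rw [hFt e he, hFt t1 h1, hFt t2 (by linarith)]
    have c1 : Real.cosh e < Real.cosh t1 := by
      rw [Real.cosh_lt_cosh, abs_of_pos he, abs_of_pos h1]; exact he1
    have c2 : Real.cosh t1 < Real.cosh t2 := by
      rw [Real.cosh_lt_cosh, abs_of_pos h1, abs_of_pos (by linarith)]; exact h2
    have := hF.convexOn.secant_mono_aux1 (x := 2 * Real.cosh e) (y := 2 * Real.cosh t1)
      (z := 2 * Real.cosh t2) (two_lt he) (two_lt (by linarith)) (by linarith) (by linarith)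
    have hexp := Real.exp_pos (2 * a)
    nlinarith
  have hT1 : Tendsto (fun e : ℝ => (Real.cosh t2 - Real.cosh e) * (g (a + t1) * g (a - t1)))
      (𝓝[>] 0) (𝓝 ((Real.cosh t2 - Real.cosh 0) * (g (a + t1) * g (a - t1)))) := by
    have : Continuous (fun e : ℝ => (Real.cosh t2 - Real.cosh e) * (g (a + t1) * g (a - t1))) := by
      fun_prop
    exact (this.tendsto 0).mono_left nhdsWithin_le_nhds
  have hT2 : Tendsto (fun e : ℝ => (Real.cosh t2 - Real.cosh t1) * (g (a + e) * g (a - e)) +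
        (Real.cosh t1 - Real.cosh e) * (g (a + t2) * g (a - t2))) (𝓝[>] 0)
      (𝓝 ((Real.cosh t2 - Real.cosh t1) * (g (a + 0) * g (a - 0)) +
        (Real.cosh t1 - Real.cosh 0) * (g (a + t2) * g (a - t2)))) := by
    have : Continuous (fun e : ℝ => (Real.cosh t2 - Real.cosh t1) * (g (a + e) * g (a - e)) +
        (Real.cosh t1 - Real.cosh e) * (g (a + t2) * g (a - t2))) := by
      fun_prop
    exact (this.tendsto 0).mono_left nhdsWithin_le_nhds
  have hfin := le_of_tendsto_of_tendsto hT1 hT2 (by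
    filter_upwards [Ioo_mem_nhdsGT h1] with e he
    exact key e he.1 he.2)
  simpa using hfin

end

theorem main {A : ℂ → ℂ} (hA : IsAiry A) {g : ℝ → ℝ} (hc : Continuous g) (hpos : ∀ s, 0 < g s)
    (hint : Integrable g)
    (hFT : ∀ l : ℝ, ∫ s : ℝ, Complex.exp (Complex.I * l * s) * g s =
      (((2 : ℝ) ^ (1 / 3 : ℝ) : ℝ) : ℂ) /
        A (Complex.I * (((2 : ℝ) ^ (-(1 / 3) : ℝ) : ℝ) : ℂ) * l)) :
    ¬ LogHM g := by
  intro h
  refine contra (g := g) (A := A) (c := (2 : ℝ) ^ (-(1 / 3) : ℝ)) (C0 := (2 : ℝ) ^ (1 / 3 : ℝ))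
    ⟨hc, hpos, hint, monoProd hc h, hA.entire, hA.ode, ?_, by positivity, ?_, by positivity,
      hFT⟩ (convProd hc h)
  · rw [hA.value]
    have h1 : 0 < Real.Gamma (2 / 3) := Real.Gamma_pos_of_pos (by norm_num)
    have h2 : 0 < (3 : ℝ) ^ (-(2 / 3) : ℝ) / Real.Gamma (2 / 3) := by positivity
    exact_mod_cast h2.ne'
  · rw [← Real.rpow_natCast, ← Real.rpow_mul (by norm_num)]
    norm_num

end

end Pool.Agent.V1146.Chern
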