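import Mathlib

/-!
# Functions `g` with `g (a+t) g (a-t)` decreasing and convex in `cosh t`
-/

namespace Pool.Agent.V1146.Chern

open Filter Topology MeasureTheory Set ProbabilityTheory

noncomputable section

/-- monotonicity of the products -/
def MonoProd (g : ℝ → ℝ) : Prop :=
  ∀ a t t' : ℝ, 0 ≤ t → t ≤ t' → g (a + t') * g (a - t') ≤ g (a + t) * g (a - t)

lemma MonoProd.neg {g : ℝ → ℝ} (h : MonoProd g) : MonoProd (fun s => g (-s)) := by
  intro a t t' ht htt
  have := h (-a) t t' ht htt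
  have e1 : -(a + t') = -a - t' := by ring
  have e2 : -(a - t') = -a + t' := by ring
  have e3 : -(a + t) = -a - t := by ring
  have e4 : -(a - t) = -a + t := by ring
  simp only [e1, e2, e3, e4]
  linarith

lemma MonoProd.shift {g : ℝ → ℝ} (hg : MonoProd g) {x y h : ℝ} (hxy : x ≤ y) (hh : 0 ≤ h) :
    g x * g (y + h) ≤ g (x + h) * g y := by
  rcases le_total (x + h) y with hc | hc
  · have := hg ((x + y + h) / 2) ((y - x - h) / 2) ((y + h - x) / 2) (by linarith) (by linarith)
    have e1 : (x + y + h) / 2 + (y + h - x) / 2 = y + h := by ring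
    have e2 : (x + y + h) / 2 - (y + h - x) / 2 = x := by ring
    have e3 : (x + y + h) / 2 + (y - x - h) / 2 = y := by ring
    have e4 : (x + y + h) / 2 - (y - x - h) / 2 = x + h := by ring
    rw [e1, e2, e3, e4] at this
    linarith
  · have := hg ((x + y + h) / 2) ((x + h - y) / 2) ((y + h - x) / 2) (by linarith) (by linarith)
    have e1 : (x + y + h) / 2 + (y + h - x) / 2 = y + h := by ring
    have e2 : (x + y + h) / 2 - (y + h - x) / 2 = x := by ring
    have e3 : (x + y + h) / 2 + (x + h - y) / 2 = x + h := by ring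
    have e4 : (x + y + h) / 2 - (x + h - y) / 2 = y := by ring
    rw [e1, e2, e3, e4] at this
    linarith

/-- exponential decay to the left from a growth condition -/
lemma decay {g : ℝ → ℝ} (hc : Continuous g) (hpos : ∀ s, 0 < g s) {h q s0 : ℝ} (hh : 0 < h)
    (hq : 1 < q) (hgr : ∀ x ≤ s0, q * g x ≤ g (x + h)) :
    ∃ K : ℝ, 0 < K ∧ ∀ x ≤ s0, g x ≤ K * Real.exp (Real.log q / h * x) := by
  obtain ⟨m, hm, hmax⟩ := (isCompact_Icc (a := s0) (b := s0 + h)).exists_isMaxOn
    (nonempty_Icc.mpr (by linarith)) hc.continuousOn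
  have hmax' : ∀ y ∈ Icc s0 (s0 + h), g y ≤ g m := fun y hy => hmax hy
  have hq0 : 0 < q := by linarith
  have hlq : 0 < Real.log q := Real.log_pos hq
  refine ⟨g m * Real.exp (-(Real.log q / h * s0)), by have := hpos m; positivity, ?_⟩
  intro x hx
  -- iterate
  have hit : ∀ j : ℕ, ∀ x : ℝ, x + j * h ≤ s0 + h → q ^ j * g x ≤ g (x + j * h) := by
    intro j
    induction j with
    | zero => intro x _; simp
    | succ j ih =>
      intro x hx
      push_cast at hx
      have h1 : x ≤ s0 := by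
        have : (0 : ℝ) ≤ j := j.cast_nonneg
        nlinarith
      have h2 := ih (x + h) (by linarith)
      have h3 := hgr x h1
      have e : x + h + j * h = x + ((j + 1 : ℕ) : ℝ) * h := by push_cast; ring
      rw [e] at h2
      calc q ^ (j + 1) * g x = q ^ j * (q * g x) := by ring
        _ ≤ q ^ j * g (x + h) := by gcongr
        _ ≤ _ := h2
  set j := ⌊(s0 - x) / h⌋₊ with hj
  have hnn : 0 ≤ (s0 - x) / h := div_nonneg (by linarith) hh.le
  have hj1 : (j : ℝ) ≤ (s0 - x) / h := Nat.floor_le hnn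
  have hj2 : (s0 - x) / h < j + 1 := Nat.lt_floor_add_one _
  rw [le_div_iff₀ hh] at hj1
  rw [div_lt_iff₀ hh] at hj2
  have h1 := hit (j + 1) x (by push_cast; linarith)
  have h2 : g (x + ((j + 1 : ℕ) : ℝ) * h) ≤ g m := by
    apply hmax'
    push_cast
    constructor <;> linarith
  have h3 : Real.exp (Real.log q / h * (s0 - x)) ≤ q ^ (j + 1) := by
    have : q ^ (j + 1) = Real.exp (Real.log q * (j + 1 : ℕ)) := by
      rw [Real.exp_mul, Real.exp_log hq0, Real.rpow_natCast]
    rw [this]
    apply Real.exp_le_exp.mpr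
    have e : Real.log q / h * (s0 - x) = Real.log q * ((s0 - x) / h) := by ring
    rw [e]
    refine mul_le_mul_of_nonneg_left ?_ hlq.le
    push_cast
    rw [div_le_iff₀ hh]
    linarith
  have h4 : Real.exp (Real.log q / h * (s0 - x)) * g x ≤ g m := by
    calc _ ≤ q ^ (j + 1) * g x := by have := (hpos x).le; gcongr
      _ ≤ g m := h1.trans h2
  have h5 : g m * Real.exp (-(Real.log q / h * s0)) * Real.exp (Real.log q / h * x) =
      g m * Real.exp (-(Real.log q / h * (s0 - x))) := by
    rw [mul_assoc, ← Real.exp_add]; congr 2; ring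
  rw [h5, Real.exp_neg, ← div_eq_mul_inv, le_div_iff₀ (Real.exp_pos _)]
  linarith

lemma int_left {g : ℝ → ℝ} (hc : Continuous g) (hpos : ∀ s, 0 < g s) {K ρ w s0 : ℝ}
    (hK : ∀ x ≤ s0, g x ≤ K * Real.exp (ρ * x)) (hw : 0 < w + ρ) :
    IntegrableOn (fun s => Real.exp (w * s) * g s) (Iic s0) := by
  have h1 : IntegrableOn (fun s => K * Real.exp ((w + ρ) * s)) (Iic s0) :=
    (integrableOn_exp_mul_Iic hw s0).const_mul K
  refine Integrable.mono' h1 (by fun_prop) ?_
  filter_upwards [ae_restrict_mem measurableSet_Iic] with s hs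
  rw [Real.norm_of_nonneg (mul_nonneg (Real.exp_pos _).le (hpos s).le)]
  calc Real.exp (w * s) * g s ≤ Real.exp (w * s) * (K * Real.exp (ρ * s)) := by
        gcongr; exact hK s hs
    _ = K * Real.exp ((w + ρ) * s) := by
        rw [add_mul, Real.exp_add]; ring

lemma int_right {g : ℝ → ℝ} (hc : Continuous g) (hpos : ∀ s, 0 < g s) (hint : Integrable g)
    {w s0 : ℝ} (hw : w ≤ 0) : IntegrableOn (fun s => Real.exp (w * s) * g s) (Ici s0) := by
  have h1 : IntegrableOn (fun s => Real.exp (w * s0) * g s) (Ici s0) :=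
    (hint.integrableOn).const_mul _
  refine Integrable.mono' h1 (by fun_prop) ?_
  filter_upwards [ae_restrict_mem measurableSet_Ici] with s hs
  rw [Real.norm_of_nonneg (mul_nonneg (Real.exp_pos _).le (hpos s).le)]
  have hs' : s0 ≤ s := hs
  refine mul_le_mul_of_nonneg_right ?_ (hpos s).le
  apply Real.exp_le_exp.mpr
  nlinarith

lemma int_all {g : ℝ → ℝ} (hc : Continuous g) (hpos : ∀ s, 0 < g s) (hint : Integrable g)
    {K ρ w s0 : ℝ} (hK : ∀ x ≤ s0, g x ≤ K * Real.exp (ρ * x)) (hw : 0 < w + ρ) (hw0 : w ≤ 0) :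
    Integrable (fun s => Real.exp (w * s) * g s) := by
  rw [← integrableOn_univ, ← Iic_union_Ici (a := s0)]
  exact (int_left hc hpos hK hw).union (int_right hc hpos hint hw0)

/-- a positive integrable function increases somewhere on the left -/
lemma exists_incr {g : ℝ → ℝ} (hpos : ∀ s, 0 < g s) (hint : Integrable g) :
    ∃ s0 s1 : ℝ, s0 < s1 ∧ g s0 < g s1 := by
  by_contra hcon
  push Not at hcon
  have h1 : IntegrableOn g (Iic 0) := hint.integrableOn
  have h2 : IntegrableOn (fun _ : ℝ => g 1) (Iic 0) := by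
    refine Integrable.mono' h1 (by fun_prop) ?_
    filter_upwards [ae_restrict_mem measurableSet_Iic] with s hs
    have hs' : s ≤ 0 := hs
    rw [Real.norm_of_nonneg (hpos 1).le]
    exact hcon s 1 (by linarith)
  rw [integrableOn_const_iff] at h2
  rcases h2 with h2 | h2
  · exact (hpos 1).ne' (by simpa using h2)
  · simp at h2

lemma MonoProd.grow {g : ℝ → ℝ} (hg : MonoProd g) (hpos : ∀ s, 0 < g s) {s0 s1 : ℝ}
    (hs : s0 < s1) : ∀ x ≤ s0, g s1 / g s0 * g x ≤ g (x + (s1 - s0)) := by
  intro x hx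
  have := hg.shift hx (h := s1 - s0) (by linarith)
  have e : s0 + (s1 - s0) = s1 := by ring
  rw [e] at this
  rw [div_mul_eq_mul_div, div_le_iff₀ (hpos s0)]
  linarith

/-- exponential integrability near `0` -/
lemma exists_left {g : ℝ → ℝ} (hg : MonoProd g) (hc : Continuous g) (hpos : ∀ s, 0 < g s)
    (hint : Integrable g) :
    ∃ r : ℝ, 0 < r ∧ Integrable (fun s => Real.exp (-r * s) * g s) := by
  obtain ⟨s0, s1, hs, hlt⟩ := exists_incr hpos hint
  have hq : 1 < g s1 / g s0 := by rw [one_lt_div (hpos s0)]; exact hlt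
  obtain ⟨K, -, hK⟩ := decay hc hpos (h := s1 - s0) (by linarith) hq (hg.grow hpos hs)
  have hρ : 0 < Real.log (g s1 / g s0) / (s1 - s0) :=
    div_pos (Real.log_pos hq) (by linarith)
  refine ⟨Real.log (g s1 / g s0) / (s1 - s0) / 2, by linarith, ?_⟩
  exact int_all hc hpos hint hK (by linarith) (by linarith)

lemma exists_right {g : ℝ → ℝ} (hg : MonoProd g) (hc : Continuous g) (hpos : ∀ s, 0 < g s)
    (hint : Integrable g) :
    ∃ r : ℝ, 0 < r ∧ Integrable (fun s => Real.exp (r * s) * g s) := by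
  obtain ⟨r, hr, h⟩ := exists_left hg.neg (hc.comp continuous_neg) (fun s => hpos (-s))
    hint.comp_neg
  refine ⟨r, hr, ?_⟩
  have := h.comp_neg
  refine this.congr (Eventually.of_forall fun s => ?_)
  simp

/-- If `e^{-rs} g` is not integrable for any `r > θ`, then `e^{-θ s} g(s)` is nonincreasing. -/
lemma antitone_f {g : ℝ → ℝ} (hg : MonoProd g) (hc : Continuous g) (hpos : ∀ s, 0 < g s)
    (hint : Integrable g) {θ : ℝ} (hθ0 : 0 ≤ θ)
    (hθ : ∀ r, θ < r → ¬ Integrable (fun s => Real.exp (-r * s) * g s)) :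
    Antitone (fun s => Real.exp (-θ * s) * g s) := by
  intro s0 s1 hs01
  rcases hs01.eq_or_lt with rfl | hs
  · exact le_rfl
  simp only
  by_contra hlt
  push Not at hlt
  have hq : Real.exp (θ * (s1 - s0)) < g s1 / g s0 := by
    rw [lt_div_iff₀ (hpos s0)]
    have e : Real.exp (θ * (s1 - s0)) = Real.exp (θ * s1) * Real.exp (-θ * s0) := by
      rw [← Real.exp_add]; congr 1; ring
    have e2 : g s1 = Real.exp (θ * s1) * (Real.exp (-θ * s1) * g s1) := by
      rw [← mul_assoc, ← Real.exp_add]; simp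
    rw [e, e2, mul_assoc]
    exact mul_lt_mul_of_pos_left hlt (Real.exp_pos _)
  have h1 : 1 ≤ Real.exp (θ * (s1 - s0)) := Real.one_le_exp (by nlinarith)
  have hq1 : 1 < g s1 / g s0 := lt_of_le_of_lt h1 hq
  obtain ⟨K, -, hK⟩ := decay hc hpos (h := s1 - s0) (by linarith) hq1 (hg.grow hpos hs)
  have hρ : θ < Real.log (g s1 / g s0) / (s1 - s0) := by
    rw [lt_div_iff₀ (by linarith)]
    have := Real.log_lt_log (Real.exp_pos _) hq
    rwa [Real.log_exp] at this
  set ρ := Real.log (g s1 / g s0) / (s1 - s0) with hρdef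
  exact hθ ((θ + ρ) / 2) (by linarith)
    (int_all hc hpos hint hK (by linarith) (by linarith))

end

end Pool.Agent.V1146.Chern
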