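import Pool.Agent.V1146.Chern.Real

/-!
# The moment generating function on the strip
-/

namespace Pool.Agent.V1146.Chern

open Filter Topology MeasureTheory Set ProbabilityTheory

noncomputable section

/-- the measure with density `g` -/
def ms (g : ℝ → ℝ) : Measure ℝ := volume.withDensity (fun s => ENNReal.ofReal (g s))

section
variable {g : ℝ → ℝ} (hc : Continuous g) (hnn : ∀ s, 0 ≤ g s)
include hc hnn

lemma integral_ms {E : Type*} [NormedAddCommGroup E] [NormedSpace ℝ E] (f : ℝ → E) :
    ∫ s, f s ∂(ms g) = ∫ s, g s • f s := by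
  unfold ms
  rw [integral_withDensity_eq_integral_toReal_smul (by fun_prop)
    (Eventually.of_forall fun s => ENNReal.ofReal_lt_top)]
  refine integral_congr_ae (Eventually.of_forall fun s => ?_)
  simp only [ENNReal.toReal_ofReal (hnn s)]

lemma integrable_ms {E : Type*} [NormedAddCommGroup E] [NormedSpace ℝ E] (f : ℝ → E) :
    Integrable f (ms g) ↔ Integrable (fun s => g s • f s) := by
  unfold ms
  rw [integrable_withDensity_iff_integrable_smul' (by fun_prop)
    (Eventually.of_forall fun s => ENNReal.ofReal_lt_top)]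
  refine integrable_congr (Eventually.of_forall fun s => ?_)
  simp only [ENNReal.toReal_ofReal (hnn s)]

lemma mem_expSet {w : ℝ} : w ∈ integrableExpSet id (ms g) ↔
    Integrable (fun s => Real.exp (w * s) * g s) := by
  unfold integrableExpSet
  rw [Set.mem_ofPred_eq, integrable_ms hc hnn]
  refine integrable_congr (Eventually.of_forall fun s => ?_)
  simp [mul_comm]

lemma interior_expSet {r δ : ℝ} (h1 : Integrable (fun s => Real.exp (-r * s) * g s))
    (h2 : Integrable (fun s => Real.exp (δ * s) * g s)) {w : ℝ} (hw1 : -r < w) (hw2 : w < δ) :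
    w ∈ interior (integrableExpSet id (ms g)) := by
  have hsub : Ioo (-r) δ ⊆ integrableExpSet id (ms g) := by
    intro x hx
    have hcv := convex_integrableExpSet (X := (id : ℝ → ℝ)) (μ := ms g)
    have hseg := hcv.ordConnected.out ((mem_expSet hc hnn).mpr h1) ((mem_expSet hc hnn).mpr h2)
    exact hseg (Ioo_subset_Icc_self hx)
  exact interior_maximal hsub isOpen_Ioo ⟨hw1, hw2⟩

lemma cmgf_eq (z : ℂ) : complexMGF id (ms g) z = ∫ s : ℝ, (g s : ℂ) * Complex.exp (z * s) := by
  unfold complexMGF
  rw [integral_ms hc hnn]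
  simp

lemma cmgf_real (w : ℝ) : complexMGF id (ms g) w =
    ((∫ s : ℝ, Real.exp (w * s) * g s : ℝ) : ℂ) := by
  rw [cmgf_eq hc hnn, ← integral_complex_ofReal]
  refine integral_congr_ae (Eventually.of_forall fun s => ?_)
  simp only
  push_cast
  ring

/-- the identity `M(z) A(cz) = C₀` on the strip of convergence -/
lemma strip {A : ℂ → ℂ} (hA : Differentiable ℂ A) (hA0 : A 0 ≠ 0) {c C0 : ℝ}
    (hFT : ∀ l : ℝ, ∫ s : ℝ, Complex.exp (Complex.I * l * s) * g s =
      C0 / A (Complex.I * c * l)) {r δ : ℝ} (hr : 0 < r) (hδ : 0 < δ)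
    (h1 : Integrable (fun s => Real.exp (-r * s) * g s))
    (h2 : Integrable (fun s => Real.exp (δ * s) * g s)) {z : ℂ} (hz1 : -r < z.re)
    (hz2 : z.re < δ) : complexMGF id (ms g) z * A (c * z) = C0 := by
  set U : Set ℂ := {z : ℂ | -r < z.re} ∩ {z : ℂ | z.re < δ} with hU
  have hUc : IsPreconnected U :=
    ((convex_halfSpace_re_gt (-r)).inter (convex_halfSpace_re_lt δ)).isPreconnected
  have hM : AnalyticOnNhd ℂ (complexMGF id (ms g)) U := by
    refine analyticOnNhd_complexMGF.mono fun z hz => ?_
    exact interior_expSet hc hnn h1 h2 hz.1 hz.2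
  have hAc : AnalyticOnNhd ℂ (fun z => A (c * z)) U := by
    intro z _
    exact (hA.comp (by fun_prop : Differentiable ℂ (fun z : ℂ => (c : ℂ) * z))).analyticAt z
  have hF : AnalyticOnNhd ℂ (fun z => complexMGF id (ms g) z * A (c * z)) U := hM.mul hAc
  have hG : AnalyticOnNhd ℂ (fun _ : ℂ => (C0 : ℂ)) U := analyticOnNhd_const
  have h0 : (0 : ℂ) ∈ U := ⟨by simpa using hr, by simpa using hδ⟩
  have hfreq : ∃ᶠ z in 𝓝[≠] (0 : ℂ), complexMGF id (ms g) z * A (c * z) = (C0 : ℂ) := by
    have hT : Tendsto (fun l : ℝ => Complex.I * (l : ℂ)) (𝓝[≠] 0) (𝓝[≠] 0) := by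
      refine tendsto_nhdsWithin_of_tendsto_nhds_of_eventually_within _ ?_ ?_
      · have : Continuous (fun l : ℝ => Complex.I * (l : ℂ)) := by fun_prop
        have h := this.tendsto 0
        simp only [Complex.ofReal_zero, mul_zero] at h
        exact h.mono_left nhdsWithin_le_nhds
      · filter_upwards [self_mem_nhdsWithin] with l hl
        have : l ≠ 0 := hl
        simp [this]
    refine hT.frequently ?_
    refine Eventually.frequently ?_
    have hcont : Continuous (fun l : ℝ => A (Complex.I * c * l)) :=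
      hA.continuous.comp (by fun_prop)
    have hne : ∀ᶠ l : ℝ in 𝓝 0, A (Complex.I * c * l) ≠ 0 := by
      have h : A (Complex.I * c * (0 : ℝ)) ≠ 0 := by simpa using hA0
      exact hcont.continuousAt.eventually_ne h
    filter_upwards [hne.filter_mono nhdsWithin_le_nhds] with l hl
    have e1 : complexMGF id (ms g) (Complex.I * l) = C0 / A (Complex.I * c * l) := by
      rw [← hFT l, cmgf_eq hc hnn]
      refine integral_congr_ae (Eventually.of_forall fun s => ?_)
      simp only
      ring
    have e2 : (c : ℂ) * (Complex.I * l) = Complex.I * c * l := by ring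
    rw [e1, e2, div_mul_cancel₀ _ hl]
  exact hF.eqOn_of_preconnected_of_frequently_eq hG hUc h0 hfreq ⟨hz1, hz2⟩

end

/-- Sturm comparison: no solution of `a'' = x a` is positive on `[-1-π, -1]`. -/
lemma sturm {a a' : ℝ → ℝ} (ha : ∀ x, HasDerivAt a (a' x) x)
    (ha' : ∀ x, HasDerivAt a' (x * a x) x) (hpos : ∀ x ∈ Icc (-1 - Real.pi) (-1), 0 < a x) :
    False := by
  have hpi := Real.pi_pos
  set F : ℝ → ℝ := fun x => a' x * Real.sin (x + 1 + Real.pi) -
    a x * Real.cos (x + 1 + Real.pi) with hF
  have hFd : ∀ x, HasDerivAt F ((x + 1) * a x * Real.sin (x + 1 + Real.pi)) x := by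
    intro x
    have h1 : HasDerivAt (fun x : ℝ => x + 1 + Real.pi) 1 x := by
      simpa using ((hasDerivAt_id x).add_const 1).add_const Real.pi
    have hs := h1.sin
    have hcs := h1.cos
    have := ((ha' x).mul hs).sub ((ha x).mul hcs)
    refine this.congr_deriv ?_
    ring
  have hanti : AntitoneOn F (Icc (-1 - Real.pi) (-1)) := by
    refine antitoneOn_of_deriv_nonpos (convex_Icc _ _)
      (fun x _ => (hFd x).continuousAt.continuousWithinAt)
      (fun x _ => (hFd x).differentiableAt.differentiableWithinAt) ?_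
    intro x hx
    rw [interior_Icc] at hx
    rw [(hFd x).deriv]
    have h1 := hpos x (Ioo_subset_Icc_self hx)
    have h2 : 0 ≤ Real.sin (x + 1 + Real.pi) :=
      Real.sin_nonneg_of_nonneg_of_le_pi (by linarith [hx.1]) (by linarith [hx.2])
    have h3 : x + 1 ≤ 0 := by linarith [hx.2]
    have h4 : (x + 1) * a x ≤ 0 := mul_nonpos_of_nonpos_of_nonneg h3 h1.le
    exact mul_nonpos_of_nonpos_of_nonneg h4 h2
  have hle := hanti (left_mem_Icc.mpr (by linarith)) (right_mem_Icc.mpr (by linarith))
    (by linarith : -1 - Real.pi ≤ -1)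
  have e1 : F (-1) = a (-1) := by
    simp only [hF]
    have : (-1 : ℝ) + 1 + Real.pi = Real.pi := by ring
    rw [this, Real.sin_pi, Real.cos_pi]; ring
  have e2 : F (-1 - Real.pi) = - a (-1 - Real.pi) := by
    simp only [hF]
    have : (-1 : ℝ) - Real.pi + 1 + Real.pi = 0 := by ring
    rw [this, Real.sin_zero, Real.cos_zero]; ring
  rw [e1, e2] at hle
  have p1 := hpos (-1) (right_mem_Icc.mpr (by linarith))
  have p2 := hpos (-1 - Real.pi) (left_mem_Icc.mpr (by linarith))
  linarith

/-- real part version for an entire solution of Airy's equation -/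
lemma sturm_airy {A : ℂ → ℂ} (hA : Differentiable ℂ A)
    (hode : ∀ z, deriv (deriv A) z = z * A z)
    (hpos : ∀ x ∈ Icc (-1 - Real.pi) (-1), 0 < (A (x : ℝ)).re) : False := by
  have hA' : Differentiable ℂ (deriv A) := hA.deriv
  refine sturm (a := fun x : ℝ => (A x).re) (a' := fun x : ℝ => (deriv A x).re) ?_ ?_ hpos
  · intro x
    exact (hA x).hasDerivAt.real_of_complex
  · intro x
    have h1 := (hA' x).hasDerivAt.real_of_complex
    rw [hode] at h1
    refine h1.congr_deriv ?_
    simp

end

end Pool.Agent.V1146.Chern
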