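import Pool.Agent.V1146.Chern.Strip
import Pool.Agent.V1146.Chern.Disc

/-!
# The exact rate of decay at `-∞`
-/

namespace Pool.Agent.V1146.Chern

open Filter Topology MeasureTheory Set ProbabilityTheory

noncomputable section

/-- the data -/
structure Setup (g : ℝ → ℝ) (A : ℂ → ℂ) (c C0 : ℝ) : Prop where
  cont : Continuous g
  pos : ∀ s, 0 < g s
  int : Integrable g
  mono : MonoProd g
  entire : Differentiable ℂ A
  ode : ∀ z, deriv (deriv A) z = z * A z
  A0 : A 0 ≠ 0
  cpos : 0 < c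
  c3 : c ^ 3 = 1 / 2
  C0pos : 0 < C0
  FT : ∀ l : ℝ, ∫ s : ℝ, Complex.exp (Complex.I * l * s) * g s = C0 / A (Complex.I * c * l)

/-- the real moment generating function -/
def R (g : ℝ → ℝ) (w : ℝ) : ℝ := ∫ s : ℝ, Real.exp (w * s) * g s

variable {g : ℝ → ℝ} {A : ℂ → ℂ} {c C0 : ℝ}

lemma interp (S : Setup g A c C0) {r w : ℝ} (hi : Integrable (fun s => Real.exp (-r * s) * g s))
    (hw1 : -r ≤ w) (hw2 : w ≤ 0) : Integrable (fun s => Real.exp (w * s) * g s) := by
  have h1 : Integrable (fun s => Real.exp (-r * s) * g s + g s) := hi.add S.int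
  refine h1.mono' ?_ (Eventually.of_forall fun s => ?_)
  · have := S.cont
    fun_prop
  have hp := S.pos s
  rw [Real.norm_of_nonneg (mul_nonneg (Real.exp_pos _).le hp.le)]
  rcases le_total s 0 with hs | hs
  · have : Real.exp (w * s) ≤ Real.exp (-r * s) := Real.exp_le_exp.mpr (by nlinarith)
    nlinarith
  · have h2 : Real.exp (w * s) ≤ 1 := by
      rw [Real.exp_le_one_iff]
      exact mul_nonpos_of_nonpos_of_nonneg hw2 hs
    have h3 := Real.exp_pos (-r * s)
    nlinarith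

lemma real_rel (S : Setup g A c C0) {r w : ℝ} (hr : 0 < r)
    (hi : Integrable (fun s => Real.exp (-r * s) * g s)) (hw1 : -r < w) (hw2 : w ≤ 0) :
    0 < R g w ∧ A ((c * w : ℝ) : ℂ) = ((C0 / R g w : ℝ) : ℂ) := by
  obtain ⟨δ, hδ, hi2⟩ := exists_right S.mono S.cont S.pos S.int
  have h := strip S.cont (fun s => (S.pos s).le) S.entire S.A0 S.FT hr hδ hi hi2 (z := (w : ℂ))
    (by simpa using hw1) (by simpa using lt_of_le_of_lt hw2 hδ)
  rw [cmgf_real S.cont (fun s => (S.pos s).le)] at h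
  have hR0 : 0 ≤ R g w := integral_nonneg fun s => mul_nonneg (Real.exp_pos _).le (S.pos s).le
  have hRne : R g w ≠ 0 := by
    intro h0
    unfold R at h0
    rw [h0] at h
    simp only [Complex.ofReal_zero, zero_mul] at h
    exact S.C0pos.ne' (by exact_mod_cast h.symm)
  have hRpos : 0 < R g w := lt_of_le_of_ne hR0 hRne.symm
  refine ⟨hRpos, ?_⟩
  have h2 : ((R g w : ℝ) : ℂ) * A (c * w) = C0 := h
  push_cast
  rw [eq_div_iff (by exact_mod_cast hRne), mul_comm]
  exact h2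

lemma theta_bound (S : Setup g A c C0) {r : ℝ} (hr : 0 < r)
    (hi : Integrable (fun s => Real.exp (-r * s) * g s)) : c * r ≤ 1 + Real.pi := by
  by_contra hcon
  push Not at hcon
  refine sturm_airy S.entire S.ode fun x hx => ?_
  have hpi := Real.pi_pos
  have h1 := real_rel S hr hi (w := x / c) ?_ ?_
  · have e : c * (x / c) = x := mul_div_cancel₀ x S.cpos.ne'
    rw [e] at h1
    rw [h1.2, Complex.ofReal_re]
    exact div_pos S.C0pos h1.1
  · rw [lt_div_iff₀ S.cpos]
    linarith [hx.1]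
  · exact div_nonpos_of_nonpos_of_nonneg (by linarith [hx.2]) S.cpos.le

lemma exists_theta (S : Setup g A c C0) : ∃ θ : ℝ, 0 < θ ∧ c * θ ≤ 1 + Real.pi ∧
    (∀ r, 0 < r → r < θ → Integrable (fun s => Real.exp (-r * s) * g s)) ∧
    (∀ r, θ < r → ¬ Integrable (fun s => Real.exp (-r * s) * g s)) := by
  set T : Set ℝ := {r | 0 < r ∧ Integrable (fun s => Real.exp (-r * s) * g s)} with hT
  obtain ⟨r0, hr0, hi0⟩ := exists_left S.mono S.cont S.pos S.int
  have hr0T : r0 ∈ T := ⟨hr0, hi0⟩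
  have hbdd : BddAbove T := by
    refine ⟨(1 + Real.pi) / c, fun r hr => ?_⟩
    rw [le_div_iff₀ S.cpos]
    have := theta_bound S hr.1 hr.2
    linarith
  refine ⟨sSup T, ?_, ?_, ?_, ?_⟩
  · exact lt_of_lt_of_le hr0 (le_csSup hbdd hr0T)
  · have : sSup T ≤ (1 + Real.pi) / c := by
      refine csSup_le ⟨r0, hr0T⟩ fun r hr => ?_
      rw [le_div_iff₀ S.cpos]
      have := theta_bound S hr.1 hr.2
      linarith
    rw [le_div_iff₀ S.cpos] at this
    linarith
  · intro r hr hlt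
    obtain ⟨r', hr', hlt'⟩ := exists_lt_of_lt_csSup ⟨r0, hr0T⟩ hlt
    exact interp S hr'.2 (by linarith) (by linarith)
  · intro r hr hcon
    have hpos : 0 < r := by
      have := le_csSup hbdd hr0T
      linarith
    have := le_csSup hbdd (show r ∈ T from ⟨hpos, hcon⟩)
    linarith

/-- the normalised function -/
def nf (g : ℝ → ℝ) (θ : ℝ) (s : ℝ) : ℝ := Real.exp (-θ * s) * g s

lemma lower (S : Setup g A c C0) {θ : ℝ} (hanti : Antitone (nf g θ)) {w : ℝ} (hw : -θ < w)
    (hi : Integrable (fun s => Real.exp (w * s) * g s)) (x : ℝ) :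
    nf g θ x * Real.exp ((w + θ) * x) / (w + θ) ≤ R g w := by
  have hwθ : 0 < w + θ := by linarith
  have e : ∫ s in Iic x, nf g θ x * Real.exp ((w + θ) * s) =
      nf g θ x * Real.exp ((w + θ) * x) / (w + θ) := by
    rw [integral_const_mul, integral_exp_mul_Iic hwθ, mul_div_assoc]
  rw [← e]
  have h1 : ∫ s in Iic x, nf g θ x * Real.exp ((w + θ) * s) ≤
      ∫ s in Iic x, Real.exp (w * s) * g s := by
    refine setIntegral_mono_on ((integrableOn_exp_mul_Iic hwθ x).const_mul _)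
      hi.integrableOn measurableSet_Iic fun s hs => ?_
    have h2 := hanti (show s ≤ x from hs)
    have h3 : Real.exp (w * s) * g s = nf g θ s * Real.exp ((w + θ) * s) := by
      unfold nf
      rw [mul_right_comm, ← Real.exp_add]
      congr 2; ring
    rw [h3]
    exact mul_le_mul_of_nonneg_right h2 (Real.exp_pos _).le
  refine h1.trans ?_
  exact setIntegral_le_integral hi
    (Eventually.of_forall fun s => mul_nonneg (Real.exp_pos _).le (S.pos s).le)

/-- the properties of `θ` -/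
structure IsRate (g : ℝ → ℝ) (θ : ℝ) : Prop where
  pos : 0 < θ
  int : ∀ r, 0 < r → r < θ → Integrable (fun s => Real.exp (-r * s) * g s)
  anti : Antitone (nf g θ)

lemma IsRate.intw {θ : ℝ} (S : Setup g A c C0) (h : IsRate g θ) {w : ℝ} (hw : -θ < w)
    (hw0 : w ≤ 0) : Integrable (fun s => Real.exp (w * s) * g s) := by
  have hθ := h.pos
  have h1 := h.int ((θ + (-w)) / 2) (by linarith) (by linarith)
  exact interp S h1 (by linarith) hw0

/-- `A` vanishes at `-cθ` -/
lemma zero_theta {θ : ℝ} (S : Setup g A c C0) (h : IsRate g θ) : A ((c * (-θ) : ℝ) : ℂ) = 0 := by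
  have hθ := h.pos
  have hbound : ∀ ε : ℝ, 0 < ε → ε ≤ θ → ‖A ((c * (-θ + ε) : ℝ) : ℂ)‖ ≤ C0 * ε / g 0 := by
    intro ε hε hεθ
    have hr := h.int (θ - ε / 2) (by linarith) (by linarith)
    obtain ⟨hR, hA⟩ := real_rel S (by linarith : 0 < θ - ε / 2) hr (w := -θ + ε)
      (by linarith) (by linarith)
    rw [hA, Complex.norm_real, Real.norm_of_nonneg (div_pos S.C0pos hR).le]
    have h1 := lower S h.anti (w := -θ + ε) (by linarith)
      (h.intw S (by linarith) (by linarith)) 0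
    have e1 : -θ + ε + θ = ε := by ring
    have e2 : nf g θ 0 = g 0 := by simp [nf]
    rw [e1, e2, mul_zero, Real.exp_zero, mul_one] at h1
    have hg := S.pos 0
    have hC := S.C0pos
    rw [div_le_iff₀ hR]
    rw [div_le_iff₀ hε] at h1
    rw [div_mul_eq_mul_div, le_div_iff₀ hg]
    nlinarith
  have hcont : Tendsto (fun ε : ℝ => ‖A ((c * (-θ + ε) : ℝ) : ℂ)‖) (𝓝[>] 0)
      (𝓝 ‖A ((c * (-θ) : ℝ) : ℂ)‖) := by
    have : Continuous (fun ε : ℝ => ‖A ((c * (-θ + ε) : ℝ) : ℂ)‖) :=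
      (S.entire.continuous.comp (by fun_prop)).norm
    have h2 := this.tendsto 0
    rw [add_zero] at h2
    exact h2.mono_left nhdsWithin_le_nhds
  have hzero : Tendsto (fun ε : ℝ => C0 * ε / g 0) (𝓝[>] 0) (𝓝 0) := by
    have : Continuous (fun ε : ℝ => C0 * ε / g 0) := by fun_prop
    have h2 := this.tendsto 0
    simp only [mul_zero, zero_div] at h2
    exact h2.mono_left nhdsWithin_le_nhds
  have hle : ‖A ((c * (-θ) : ℝ) : ℂ)‖ ≤ 0 := by
    refine le_of_tendsto_of_tendsto hcont hzero ?_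
    filter_upwards [Ioc_mem_nhdsGT hθ] with ε hε
    exact hbound ε hε.1 hε.2
  exact norm_le_zero_iff.mp hle

lemma theta_num {θ : ℝ} (hc : 0 < c) (hc3 : c ^ 3 = 1 / 2) (h : c * θ ≤ 1 + Real.pi) :
    θ ≤ 261 / 50 := by
  have hpi : Real.pi < 3.1416 := Real.pi_lt_d4
  have hc1 : 1 / 1.26 ≤ c := by
    by_contra hcon
    push Not at hcon
    have : c ^ 3 < (1 / 1.26) ^ 3 := by gcongr
    rw [hc3] at this
    norm_num at this
  by_contra hcon
  push Not at hcon
  have : (1 / 1.26) * (261 / 50) ≤ c * θ := by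
    apply mul_le_mul hc1 hcon.le (by norm_num) hc.le
  norm_num at this hpi
  linarith

/-- the shifted function `B(z) = A(c(z-θ))` -/
def BB (A : ℂ → ℂ) (c θ : ℝ) (z : ℂ) : ℂ := A (c * (z - θ))

lemma BB_diff (S : Setup g A c C0) (θ : ℝ) : Differentiable ℂ (BB A c θ) :=
  S.entire.comp (by fun_prop)

lemma BB_ode (S : Setup g A c C0) (θ : ℝ) (z : ℂ) :
    deriv (deriv (BB A c θ)) z = ((z - θ) / 2) * BB A c θ z := by
  have hline : ∀ z : ℂ, HasDerivAt (fun z : ℂ => (c : ℂ) * (z - θ)) c z := by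
    intro z
    simpa using ((hasDerivAt_id z).sub_const (θ : ℂ)).const_mul (c : ℂ)
  have h1 : deriv (BB A c θ) = fun z => c * deriv A (c * (z - θ)) := by
    funext z
    have h0 : HasDerivAt A (deriv A (c * (z - θ))) (c * (z - θ)) := (S.entire _).hasDerivAt
    have := HasDerivAt.comp (h₂ := A) (h := fun z : ℂ => (c : ℂ) * (z - θ)) z h0 (hline z)
    have h2 : HasDerivAt (BB A c θ) (deriv A (c * (z - θ)) * c) z := this
    rw [h2.deriv]; ring
  rw [h1]
  have h0 : HasDerivAt (deriv A) (deriv (deriv A) (c * (z - θ))) (c * (z - θ)) :=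
    (S.entire.deriv _).hasDerivAt
  have h3 := HasDerivAt.comp (h₂ := deriv A) (h := fun z : ℂ => (c : ℂ) * (z - θ)) z h0 (hline z)
  have h4 : HasDerivAt (fun z => (c : ℂ) * deriv A (c * (z - θ)))
      (c * (deriv (deriv A) (c * (z - θ)) * c)) z := h3.const_mul _
  rw [h4.deriv, S.ode]
  have hc3 : (c : ℂ) ^ 3 = 1 / 2 := by
    have := congrArg (fun x : ℝ => (x : ℂ)) S.c3
    push_cast at this
    exact this
  unfold BB
  linear_combination (z - θ) * A (c * (z - θ)) * hc3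

theorem rate_disc (S : Setup g A c C0) : ∃ θ : ℝ, IsRate g θ ∧ ∃ δ : ℝ, 0 < δ ∧
    ∀ z : ℂ, ‖z‖ ≤ 101 / 100 → δ ≤ ‖dslope (BB A c θ) 0 z‖ := by
  obtain ⟨θ, hθ, hcθ, hint, hnint⟩ := exists_theta S
  have hrate : IsRate g θ :=
    ⟨hθ, hint, antitone_f S.mono S.cont S.pos S.int hθ.le hnint⟩
  refine ⟨θ, hrate, ?_⟩
  have hB0 : BB A c θ 0 = 0 := by
    have h0 := zero_theta S hrate
    have e : (c : ℂ) * ((0 : ℂ) - θ) = ((c * (-θ) : ℝ) : ℂ) := by push_cast; ring
    unfold BB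
    rw [e, h0]
  refine disc (BB_diff S θ) hB0 hθ.le (theta_num S.cpos S.c3 hcθ) (BB_ode S θ) ?_
  -- a nonzero value
  set ε := min (θ / 2) 1 with hε
  have hε0 : 0 < ε := lt_min (by linarith) one_pos
  have hε1 : ε ≤ θ / 2 := min_le_left _ _
  have hr := hint (θ - ε / 2) (by linarith) (by linarith)
  obtain ⟨hR, hA⟩ := real_rel S (by linarith : 0 < θ - ε / 2) hr (w := -θ + ε)
    (by linarith) (by linarith)
  refine ⟨(ε : ℂ), ?_, ?_⟩
  · rw [Complex.norm_real, Real.norm_of_nonneg hε0.le]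
    have : ε ≤ 1 := min_le_right _ _
    linarith
  · unfold BB
    have e : (c : ℂ) * ((ε : ℂ) - θ) = ((c * (-θ + ε) : ℝ) : ℂ) := by push_cast; ring
    rw [e, hA]
    have := div_pos S.C0pos hR
    exact_mod_cast this.ne'

end

end Pool.Agent.V1146.Chern
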